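import Pool.Agent.H163R3.Sup

set_option autoImplicit false

/-!
A Spechtian variety without a finite basic superrank, over every field of characteristic `0`.

The variety `V0` is given by the two identities `x (y z) = 0` and
`((a x) y) z + ((a y) x) z = ((a z) x) y + ((a z) y) x`.
-/

namespace Pool.Agent.Results.MP_1670b2_al.SpechtianInfiniteSuperrank

open Pool.Agent.H163R3

universe u

/-- The variety `V0` is Spechtian; the Grassmann algebra exists; and `V0` is not generated by the
Grassmann envelope of a finitely generated superalgebra, whether the Grassmann algebra is taken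
with unit (`m = 0`) or without unit (`m = 1`). -/
theorem result (F : Type u) [Field F] [CharZero F] :
    Spechtian F (V0 F) ∧
    (∃ (G : Type u) (_ : Ring G) (_ : Algebra F G) (e : ℕ → G), IsGrassmann F e) ∧
    ∀ (G : Type u) [Ring G] [Algebra F G] (e : ℕ → G), IsGrassmann F e →
      ∀ m : ℕ, ¬ FinSuperrank F e m (V0 F) :=
  ⟨spechtian, exists_grassmann F, fun _ _ _ _ he m => not_superrank he m⟩

end Pool.Agent.Results.MP_1670b2_al.SpechtianInfiniteSuperrank
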